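import Pool.Agent.H503.MG.Core
import Pool.Agent.H503.MG.AuxP

/-!
# Good ordinary primes: the analytic `μ`-invariant is zero for `p = 3` and `p = 2`

Let `f` be a normalised cusp form of weight two on `Γ₀(N)` with integral Fourier coefficients `c(n)`
which is an eigenform of the Hecke operators `T_l`, `l ∤ N`, and whose periods lie in a lattice: for
example the newform of an elliptic curve `E/ℚ` of conductor `N`.  For a group `Γ` with
`Γ₁(N) ≤ Γ ≤ Γ₀(N)` and `s = 1` or `s = -1` the numbers `c + s c̄`, `c` a period of `f` for `Γ`, are the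
integral multiples of a number `Ω ≠ 0` (twice the real or imaginary parts of the periods).

Let `p ∤ N` be an ordinary prime, `p ∤ c(p)`, and let `Γ = Γ₁(N)`.  There is **no** hypothesis on
`E[p]`, which may be reducible, and no hypothesis on congruences.  Then for all sufficiently large `n`
some primitive character `χ` modulo `p^n` with `χ(-1) = s` has `G(χ̄) L(f, χ, 1) = Ω λ`, where
`λ ∈ ℤ[χ]` is **not** divisible by `p`.  If `p = 3` or `p = 2`, then this holds for **all** primitive `χ`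
modulo `p^n` with `χ(-1) = s`.  The same is true for all `Γ` with `Γ₁(N) ≤ Γ ≤ Γ₀(N)` if
`c(q) ≢ q + 1 (mod p)` for some prime `q ≡ 1 (mod N)` (for example if `p > 2` and `E[p]` is
irreducible).

The algebraic parts `λ` are, up to powers of the unit root and roots of unity, the values of the
`p`-adic `L`-function of Mazur and Swinnerton-Dyer at the characters of conductor `p^n`.  So for
`p = 3` the `μ`-invariant of the `3`-adic `L`-function of `E` is zero for **every** elliptic curve with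
good ordinary reduction at `3` which is optimal for `X₁(N)`; every isogeny class contains one, and its
Manin constant is prime to `3` by a theorem of Mazur.  This is the analytic side of Greenberg's
conjecture that every isogeny class contains a curve with `μ = 0`.

Sketch of proof.  Let `K(x, y)` be the value of the modular symbol `{i∞, x/y}`, multiplied by
`D = c(q) - q - 1 ≠ 0`, an integer.  The value at `(a, c)` is divisible by `D` if `N ∣ c`, `N ∣ a - 1`, with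
equality for some `(a, c)`.  Let `R` be the ring of integers modulo `p^(v(D)+1)`.  If the assertion
fails, then the relation for `T_p` shows `K(a, p^(n+1)) = β K(a, p^n)` in `R` for all `n` and all `a`
prime to `p`, where `β` is the inverse of the unit root.  By an argument with cocycles whose values are
measures on `ℤ_p` (as for multiplicative primes) one deduces `K(a, p c) = β K(a, c)` for all coprime
`(a, c)` with `N ∣ c`, `p ∤ a`.  As in the proof of the congruence subgroup property for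
`SL₂(ℤ[1/p])` (with Dirichlet's theorem on primes in arithmetic progressions as the only
input) it follows that `K(a, c)` is multiplicative in `c` and periodic in `a`, and then that it
vanishes on all `(a, c)` with `N ∣ c`, `N ∣ a - 1`.  So `D` is divisible by `p^(v(D)+1)`, which is
impossible.  (The prime `q` exists since the sum of the inverses of the primes `q ≡ 1 (mod N)` diverges
and `c(n) = O(n)`.)
-/

set_option autoImplicit false

open Complex UpperHalfPlane MatrixGroups CongruenceSubgroup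

namespace Pool.Agent.Results.MP_6b77c8_nt.MuZeroOrdinary

/-- The `n`-th Fourier coefficient of `f`. -/
noncomputable def coef {N : ℕ} (f : CuspForm (Gamma0 N : Subgroup (GL (Fin 2) ℝ)) 2) (n : ℕ) : ℂ :=
  (qExpansion 1 f).coeff n

/-- The primitive `∑ c(n)/n e^(2πinz) = 2πi ∫_{i∞}^z f(w) dw` of `2πi f(z) dz`. -/
noncomputable def prim {N : ℕ} (f : CuspForm (Gamma0 N : Subgroup (GL (Fin 2) ℝ)) 2) (z : ℂ) : ℂ :=
  ∑' n : ℕ, coef f n / n * Complex.exp (2 * Real.pi * Complex.I * n * z)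

/-- `c` is a period `2πi ∫_z^{γz} f(w) dw` of `f`, `γ ∈ Γ`. -/
def IsPeriod {N : ℕ} (f : CuspForm (Gamma0 N : Subgroup (GL (Fin 2) ℝ)) 2) (Γ : Subgroup SL(2, ℤ))
    (c : ℂ) : Prop :=
  ∃ γ ∈ Γ, ∀ z : ℍ, prim f ((γ • z : ℍ) : ℂ) = prim f (z : ℂ) + c

/-- The hypotheses on `f`: integral coefficients `c(n)`, `c(1) = 1`, the Hecke relations
`c(l m) + l c(m / l) = c(l) c(m)` for the primes `l ∤ N`, and periods in a lattice.  They hold for the
newform of an elliptic curve over `ℚ` of conductor `N`. -/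
structure IsElliptic {N : ℕ} (f : CuspForm (Gamma0 N : Subgroup (GL (Fin 2) ℝ)) 2) : Prop where
  level : N ≠ 0
  one : coef f 1 = 1
  integral : ∀ n, ∃ c : ℤ, coef f n = c
  hecke : ∀ l m : ℕ, l.Prime → ¬ l ∣ N →
    coef f (l * m) + (if l ∣ m then (l : ℂ) * coef f (m / l) else 0) = coef f l * coef f m
  lattice : ∃ ω₁ ω₂ : ℂ, (ω₁ * (starRingEnd ℂ) ω₂).im ≠ 0 ∧
    ∀ γ : SL(2, ℤ), γ ∈ Gamma0 N → ∃ x y : ℤ, ∀ z : ℍ,
      prim f ((γ • z : ℍ) : ℂ) = prim f (z : ℂ) + (x * ω₁ + y * ω₂)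

/-- Good ordinary reduction: `p` divides neither `N` nor `c(p)`. -/
def IsOrdinary {N : ℕ} (f : CuspForm (Gamma0 N : Subgroup (GL (Fin 2) ℝ)) 2) (p : ℕ) : Prop :=
  p.Prime ∧ ¬ p ∣ N ∧ ∀ c : ℤ, coef f p = c → ¬ (p : ℤ) ∣ c

/-- There is a prime `q ≡ 1 (mod N)` with `c(q) ≢ q + 1 (mod p)`. -/
def NonEisenstein {N : ℕ} (f : CuspForm (Gamma0 N : Subgroup (GL (Fin 2) ℝ)) 2) (p : ℕ) : Prop :=
  ∃ q : ℕ, q.Prime ∧ (N : ℤ) ∣ q - 1 ∧ ∀ c : ℤ, coef f q = c → ¬ (p : ℤ) ∣ c - (q + 1)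

/-- The numbers `c + s c̄`, `c` a period of `f` for `Γ`, are the integral multiples of `Ω ≠ 0`. -/
def Generates {N : ℕ} (f : CuspForm (Gamma0 N : Subgroup (GL (Fin 2) ℝ)) 2) (Γ : Subgroup SL(2, ℤ))
    (s Ω : ℂ) : Prop :=
  Ω ≠ 0 ∧ ∀ w : ℂ, (∃ c, IsPeriod f Γ c ∧ w = c + s * (starRingEnd ℂ) c) ↔ ∃ k : ℤ, w = k * Ω

/-- The Gauss sum `G(χ̄) = ∑ χ̄(a) e^(2πia/M)`, `0 ≤ a < M`. -/
noncomputable def gauss {M : ℕ} (χ : DirichletCharacter ℂ M) : ℂ :=
  ∑ a ∈ Finset.range M, χ⁻¹ (a : ZMod M) * Complex.exp (2 * Real.pi * Complex.I * a / M)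

/-- `λ = l` is an element of `ℤ[χ]`, `L(f, χ, s) = ∑ χ(n) c(n) n^(-s)` continues to an entire function,
and `G(χ̄) L(f, χ, 1) = Ω λ`. -/
def IsAlgebraicPart {M : ℕ} (c : ℕ → ℂ) (Ω : ℂ) (χ : DirichletCharacter ℂ M)
    (l : integralClosure ℤ ℂ) : Prop :=
  (l : ℂ) ∈ Algebra.adjoin ℤ (Set.range χ) ∧ ∃ L : ℂ → ℂ, Differentiable ℂ L ∧
    (∀ s : ℂ, 2 < s.re → L s = LSeries (fun n => χ n * c n) s) ∧ gauss χ * L 1 = Ω * (l : ℂ)

/-- The algebraic part `λ` of `L(f, χ, 1)` is not divisible by `p` (in the ring of all algebraic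
integers). -/
def NonzeroModP {N M : ℕ} (f : CuspForm (Gamma0 N : Subgroup (GL (Fin 2) ℝ)) 2) (p : ℕ) (Ω : ℂ)
    (χ : DirichletCharacter ℂ M) : Prop :=
  ∃ l : integralClosure ℤ ℂ, IsAlgebraicPart (coef f) Ω χ l ∧ ¬ (p : integralClosure ℤ ℂ) ∣ l

/-- For all large `n` the algebraic part is not divisible by `p` for some primitive `χ` modulo `p^n`
with `χ(-1) = s`, and for all of them if `p = 2` or `p = 3`. -/
def MuZero {N : ℕ} (f : CuspForm (Gamma0 N : Subgroup (GL (Fin 2) ℝ)) 2) (p : ℕ) (s Ω : ℂ) : Prop :=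
  ∃ n₀ : ℕ, ∀ n ≥ n₀,
    (∃ χ : DirichletCharacter ℂ (p ^ n), χ.IsPrimitive ∧ χ (-1) = s ∧ NonzeroModP f p Ω χ) ∧
    (p = 2 ∨ p = 3 → ∀ χ : DirichletCharacter ℂ (p ^ n), χ.IsPrimitive → χ (-1) = s →
      NonzeroModP f p Ω χ)

theorem result {N : ℕ} (f : CuspForm (Gamma0 N : Subgroup (GL (Fin 2) ℝ)) 2) (hf : IsElliptic f)
    (p : ℕ) (hp : IsOrdinary f p) (Γ : Subgroup SL(2, ℤ)) (h1 : Gamma1 N ≤ Γ) (h0 : Γ ≤ Gamma0 N)
    (hE : Γ = Gamma1 N ∨ NonEisenstein f p) (s : ℂ) (hs : s = 1 ∨ s = -1) :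
    ∃ Ω : ℂ, Generates f Γ s Ω ∧ MuZero f p s Ω := by
  have hN0 : NeZero N := ⟨hf.level⟩
  have hreal : ∀ n, (coef f n).im = 0 := by
    intro n
    obtain ⟨c, hc⟩ := hf.integral n
    rw [hc]
    simp
  have hne : f ≠ 0 := by
    rintro rfl
    have h1 := hf.one
    unfold coef at h1
    have h2 : (qExpansion 1 (0 : CuspForm (Gamma0 N : Subgroup (GL (Fin 2) ℝ)) 2)).coeff 1 = 0 := by
      have h3 : ((0 : CuspForm (Gamma0 N : Subgroup (GL (Fin 2) ℝ)) 2) : ℍ → ℂ) = 0 := rfl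
      rw [h3, qExpansion_zero, map_zero]
    rw [h2] at h1
    exact zero_ne_one h1
  obtain ⟨Ω, hΩ⟩ := H503.TA.exists_generator f hreal hf.lattice hs
  have hΩ0 := H503.TA.generator_ne_zero f hne hs hΩ
  obtain ⟨Ω1, hΩ10, hΩ1⟩ := H503.MG.exists_generator1 f hΩ0 hΩ
  have hH : ∀ l : ℕ, l.Prime → ¬ l ∣ N → ∀ c : ℤ, coef f l = c → H503.MU.HeckeAt f l c := by
    intro l hl hlN c hc m
    have := hf.hecke l m hl hlN
    rw [hc] at this
    exact this
  have hqN : ∀ q : ℕ, q.Prime → (N : ℤ) ∣ q - 1 → ¬ q ∣ N := by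
    intro q h1 h3 hd
    have h5 : (q : ℤ) ∣ q - 1 := (by exact_mod_cast hd : (q : ℤ) ∣ N).trans h3
    have h6 : (q : ℤ) ∣ 1 := by
      have := dvd_sub (dvd_refl (q : ℤ)) h5
      rwa [sub_sub_cancel] at this
    have h7 : q ∣ 1 := by exact_mod_cast h6
    exact h1.one_lt.ne' (Nat.dvd_one.1 h7)
  obtain ⟨cp, hcp⟩ := hf.integral p
  -- the auxiliary prime
  obtain ⟨C, hC⟩ : ∃ C : ℝ, ∀ n : ℕ, ‖coef f n‖ ≤ C * n := by
    have h1 := H503.TA.coef_O f
    rw [Asymptotics.isBigO_nat_atTop_iff] at h1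
    · obtain ⟨C, hC⟩ := h1
      refine ⟨C, fun n => ?_⟩
      have h2 := hC n
      rw [Real.rpow_one, Real.norm_of_nonneg (Nat.cast_nonneg n)] at h2
      exact h2
    · intro n hn
      rw [Real.rpow_one] at hn
      have hn0 : n = 0 := by exact_mod_cast hn
      rw [hn0]
      exact H503.TA.coef_zero f
  obtain ⟨q, hq, hq1, hcq⟩ := H503.MG.exists_aux N hf.one hf.hecke hC
  have hq1' : (N : ℤ) ∣ q - 1 := by
    rw [← ZMod.intCast_zmod_eq_zero_iff_dvd]
    push_cast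
    rw [hq1, sub_self]
  obtain ⟨cq, hcq'⟩ := hf.integral q
  have hne2 : cq ≠ q + 1 := by
    intro h
    apply hcq
    rw [hcq', h]
    push_cast
    ring
  have hmain : H503.MG.MuZeroC f p s Ω1 :=
    H503.MG.final1 f hp.1 hp.2.1 hreal hs hΩ10 hΩ1 (hH p hp.1 hp.2.1 cp hcp)
      (hp.2.2 cp hcp) hq hq1' (hH q hq (hqN q hq hq1') cq hcq') hne2
  rcases hE with rfl | ⟨r, hr, hr1, hr2⟩
  · exact ⟨Ω1, ⟨hΩ10, hΩ1⟩, hmain⟩
  · obtain ⟨ΩG, hΩG0, hΩG⟩ := H503.MG.exists_generatorG f h1 h0 hΩ0 hΩ hΩ10 hΩ1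
    obtain ⟨cr, hcr⟩ := hf.integral r
    obtain ⟨m, hm, hmd⟩ := H503.MG.index_dvd f h1 hΩG0 hΩG hΩ1 hr hr1
      (hH r hr (hqN r hr hr1) cr hcr)
    refine ⟨ΩG, ⟨hΩG0, hΩG⟩, ?_⟩
    rw [hm] at hmain
    exact H503.MG.muZeroC_mul f hp.1 (fun h => hr2 cr hcr (h.trans hmd)) hmain

end Pool.Agent.Results.MP_6b77c8_nt.MuZeroOrdinary
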